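import Pool.Agent.N875.K15.Stm
import Pool.Agent.N42.K17.GN

/-!
# Project K15 (helper875): GN, the necessary condition at the places over `p`, `p ∤ 30 m`
(helper767; adapted from helper42's `N42/K17/GN.lean`)
-/

set_option autoImplicit false

open NumberField IsDedekindDomain WithZero

namespace Pool.Agent.N767.K15

open Pool.Agent.N49.QB (VV vv_int vv_one val_exp not_mem_of_not_dvd ev_good not_sq_mul)
open Pool.Agent.N42.K17 (vv_sqf)

/-- **(GN)** -/
theorem t_GN : Pool.Agent.N875.K15.S_GN := by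
  intro m hm hm1 K _ _ r hq p hp hpn w hw a b ha hb hL
  have hpm : ¬ (p : ℤ) ∣ 2 * m := by
    intro h
    apply hpn
    have e : (30 : ℤ) * m = 15 * (2 * m) := by ring
    rw [e]
    exact h.mul_left 15
  have hpZ : Prime (p : ℤ) := Nat.prime_iff_prime_int.1 hp
  have hp2 : ¬ (p : ℤ) ∣ 2 := fun h => hpm (h.mul_right m)
  have hp3 : ¬ (p : ℤ) ∣ 3 := fun h => hpn (by
    have e : (30 : ℤ) * m = 3 * (10 * m) := by ring
    rw [e]
    exact h.mul_right _)
  have hp5 : ¬ (p : ℤ) ∣ 5 := fun h => hpn (by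
    have e : (30 : ℤ) * m = 5 * (6 * m) := by ring
    rw [e]
    exact h.mul_right _)
  have hp9 : ¬ (p : ℤ) ∣ 9 := by
    intro h
    apply hp3
    have e : (9 : ℤ) = 3 ^ 2 := by norm_num
    rw [e] at h
    exact hpZ.dvd_of_dvd_pow h
  have hp25 : ¬ (p : ℤ) ∣ 25 := by
    intro h
    apply hp5
    have e : (25 : ℤ) = 5 ^ 2 := by norm_num
    rw [e] at h
    exact hpZ.dvd_of_dvd_pow h
  have hp16 : ¬ (p : ℤ) ∣ 16 := by
    intro h
    apply hp2
    have e : (16 : ℤ) = 2 ^ 4 := by norm_num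
    rw [e] at h
    exact hpZ.dvd_of_dvd_pow h
  obtain ⟨x, y, hy0, he, hsa, hsb⟩ := hL
  have he' : y ^ 2 = x * (x + 9) * (x + (-16)) := by
    rw [he]
    push_cast
    ring
  have hsa' : IsSquare (x * (a : w.adicCompletion K)) := by
    have e : x * (a : w.adicCompletion K) = (x - ((0 : ℤ) : w.adicCompletion K)) * a := by
      push_cast
      ring
    rw [e]
    exact hsa
  have hsb' : IsSquare ((x + 9) * (b : w.adicCompletion K)) := by
    have e : (x + 9) * (b : w.adicCompletion K) =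
        (x - ((-9 : ℤ) : w.adicCompletion K)) * b := by
      push_cast
      ring
    rw [e]
    exact hsb
  have hy2 : y ^ 2 ≠ 0 := pow_ne_zero 2 hy0
  have hx0 : x ≠ 0 := by
    rintro rfl
    rw [he'] at hy2
    simp at hy2
  have hx1 : x + 9 ≠ 0 := by
    intro h
    rw [he', h] at hy2
    simp at hy2
  have v9 : VV w (9 : w.adicCompletion K) = 1 := by
    exact_mod_cast vv_one hp w hw 9 hp9
  have v16 : VV w (-16 : w.adicCompletion K) = 1 := by
    rw [Valuation.map_neg]
    exact_mod_cast vv_one hp w hw 16 hp16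
  have v25 : VV w ((9 : w.adicCompletion K) - (-16)) = 1 := by
    have e : (9 : w.adicCompletion K) - (-16) = ((25 : ℤ) : w.adicCompletion K) := by
      push_cast
      norm_num
    rw [e]
    exact vv_one hp w hw 25 hp25
  obtain ⟨g1, g2, -⟩ := ev_good (VV w) (X := x) (δ := 9) (u := -16) (y := y) v9 v16 v25
    hy0 he'
  exact ⟨fun hpa => not_sq_mul (VV w) hx0 g1 hsa' (vv_sqf hq hp hpm w hw a ha hpa),
    fun hpb => not_sq_mul (VV w) hx1 g2 hsb' (vv_sqf hq hp hpm w hw b hb hpb)⟩

end Pool.Agent.N767.K15
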